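import Mathlib

set_option autoImplicit false

/-!
Factorizations of the flip graph of the 2-subsets into rainbow Hamilton cycles: there is none for
`n = 5`.
-/

namespace Pool.Agent.Results.MP_fbee77_co.RainbowFactorization

open scoped symmDiff

/-- A rainbow Hamilton cycle of `G_{n,2}`, as a function on the natural numbers which is periodic
with period `n.choose 2`. Two pairs `A`, `B` are adjacent if `A ∆ B` has two elements, and the
colour of this edge is `A ∆ B`. -/
structure IsRainbowHam (n : ℕ) (c : ℕ → Finset (Fin n)) : Prop where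
  pair : ∀ i, (c i).card = 2
  periodic : ∀ i, c (i + n.choose 2) = c i
  adj : ∀ i, (c i ∆ c (i + 1)).card = 2
  inj : ∀ i j, i < j → j < n.choose 2 → c i ≠ c j
  rainbow : ∀ i j, i < j → j < n.choose 2 → c i ∆ c (i + 1) ≠ c j ∆ c (j + 1)

/-- The edges of a cycle. -/
def edges {n : ℕ} (c : ℕ → Finset (Fin n)) : Set (Sym2 (Finset (Fin n))) :=
  {e | ∃ i, e = s(c i, c (i + 1))}

/-- The edge set of the flip graph `G_{n,2}`. -/
def flipEdges (n : ℕ) : Set (Sym2 (Finset (Fin n))) :=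
  {e | ∃ A B : Finset (Fin n), A.card = 2 ∧ B.card = 2 ∧ (A ∆ B).card = 2 ∧ e = s(A, B)}

/-- The edge set of `G_{n,2}` is partitioned into `n - 2` rainbow Hamilton cycles. -/
def HasFactorization (n : ℕ) : Prop :=
  ∃ C : Fin (n - 2) → ℕ → Finset (Fin n), (∀ j, IsRainbowHam n (C j)) ∧
    (∀ j k, j ≠ k → Disjoint (edges (C j)) (edges (C k))) ∧ ⋃ j, edges (C j) = flipEdges n

section five

/-- Codes of the pairs. -/
def dec : ℕ → Finset (Fin 5)
  | 0 => {0, 1} | 1 => {0, 2} | 2 => {0, 3} | 3 => {0, 4} | 4 => {1, 2}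
  | 5 => {1, 3} | 6 => {1, 4} | 7 => {2, 3} | 8 => {2, 4} | _ => {3, 4}

/-- The table of colours (plus one), with `0` for nonadjacent pairs. -/
def tb : List (List ℕ) :=
  [[0, 5, 6, 7, 2, 3, 4, 0, 0, 0], [5, 0, 8, 9, 1, 0, 0, 3, 4, 0], [6, 8, 0, 10, 0, 1, 0, 2, 0, 4],
   [7, 9, 10, 0, 0, 0, 1, 0, 2, 3], [2, 1, 0, 0, 0, 8, 9, 6, 7, 0], [3, 0, 1, 0, 8, 0, 10, 5, 0, 7],
   [4, 0, 0, 1, 9, 10, 0, 0, 5, 6], [0, 3, 2, 0, 6, 5, 0, 0, 10, 9], [0, 4, 0, 2, 7, 0, 5, 10, 0, 8],
   [0, 0, 4, 3, 0, 7, 6, 9, 8, 0]]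

/-- Table lookup. -/
def tab (a b : ℕ) : ℕ := (tb.getD a []).getD b 0

/-- Edge codes. -/
def ed (a b : ℕ) : ℕ := 10 * min a b + max a b

/-- The search. -/
def search (st : ℕ) : ℕ → ℕ → ℕ → ℕ → ℕ → List ℕ
  | 0, cur, _, cols, mask =>
    bif (tab cur st == 0) || cols.testBit (tab cur st) then [] else [mask ||| 2 ^ ed cur st]
  | k + 1, cur, used, cols, mask =>
    (List.range 10).flatMap fun w =>
      bif (tab cur w == 0) || used.testBit w || cols.testBit (tab cur w) then []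
      else search st k w (used ||| 2 ^ w) (cols ||| 2 ^ tab cur w) (mask ||| 2 ^ ed cur w)

/-- The list of all edge masks of rainbow Hamilton cycles. -/
def masks : List ℕ := search 0 9 0 1 0 0

theorem masks_check : (masks.all fun a => masks.all fun b => (a &&& b != 0) ||
    masks.all fun c => (a &&& c != 0) || (b &&& c != 0)) = true := by
  decide +kernel

theorem dec_surj : ∀ A : Finset (Fin 5), A.card = 2 → ∃ k, k < 10 ∧ dec k = A := by decide

theorem tab_spec : ∀ a, a < 10 → ∀ b, b < 10 → (dec a ∆ dec b).card = 2 →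
    tab a b ≠ 0 ∧ dec (tab a b - 1) = dec a ∆ dec b := by decide

theorem dec_inj : ∀ a, a < 10 → ∀ b, b < 10 → dec a = dec b → a = b := by decide

theorem ed_inj : ∀ a, a < 10 → ∀ b, b < 10 → ∀ c, c < 10 → ∀ d, d < 10 → ed a b = ed c d →
    (a = c ∧ b = d) ∨ (a = d ∧ b = c) := by
  intro a ha b hb c hc d hd h
  unfold ed at h
  omega

section run

variable (x : ℕ → ℕ)

/-- used vertices -/
def usedM : ℕ → ℕ
  | 0 => 2 ^ x 0
  | t + 1 => usedM t ||| 2 ^ x (t + 1)

/-- used colours -/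
def colsM : ℕ → ℕ
  | 0 => 0
  | t + 1 => colsM t ||| 2 ^ tab (x t) (x (t + 1))

/-- used edges -/
def maskM : ℕ → ℕ
  | 0 => 0
  | t + 1 => maskM t ||| 2 ^ ed (x t) (x (t + 1))

theorem usedM_iff (w : ℕ) : ∀ t, (usedM x t).testBit w = true ↔ ∃ s, s ≤ t ∧ x s = w := by
  intro t
  induction t with
  | zero =>
    rw [usedM, Nat.testBit_two_pow]
    simp
  | succ t ih =>
    rw [usedM, Nat.testBit_or, Bool.or_eq_true, ih, Nat.testBit_two_pow, decide_eq_true_eq]
    constructor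
    · rintro (⟨s, hs, h⟩ | h)
      · exact ⟨s, by omega, h⟩
      · exact ⟨t + 1, le_rfl, h⟩
    · rintro ⟨s, hs, h⟩
      rcases Nat.lt_or_ge t s with h1 | h1
      · right
        have : s = t + 1 := by omega
        rw [← this]; exact h
      · exact Or.inl ⟨s, h1, h⟩

theorem colsM_iff (w : ℕ) : ∀ t, (colsM x t).testBit w = true ↔
    ∃ s, s < t ∧ tab (x s) (x (s + 1)) = w := by
  intro t
  induction t with
  | zero => simp [colsM]
  | succ t ih =>
    rw [colsM, Nat.testBit_or, Bool.or_eq_true, ih, Nat.testBit_two_pow, decide_eq_true_eq]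
    constructor
    · rintro (⟨s, hs, h⟩ | h)
      · exact ⟨s, by omega, h⟩
      · exact ⟨t, by omega, h⟩
    · rintro ⟨s, hs, h⟩
      rcases Nat.lt_or_ge s t with h1 | h1
      · exact Or.inl ⟨s, h1, h⟩
      · right
        have : s = t := by omega
        rw [← this]; exact h

theorem maskM_iff (w : ℕ) : ∀ t, (maskM x t).testBit w = true ↔
    ∃ s, s < t ∧ ed (x s) (x (s + 1)) = w := by
  intro t
  induction t with
  | zero => simp [maskM]
  | succ t ih =>
    rw [maskM, Nat.testBit_or, Bool.or_eq_true, ih, Nat.testBit_two_pow, decide_eq_true_eq]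
    constructor
    · rintro (⟨s, hs, h⟩ | h)
      · exact ⟨s, by omega, h⟩
      · exact ⟨t, by omega, h⟩
    · rintro ⟨s, hs, h⟩
      rcases Nat.lt_or_ge s t with h1 | h1
      · exact Or.inl ⟨s, h1, h⟩
      · right
        have : s = t := by omega
        rw [← this]; exact h

theorem complete (hx : ∀ t, x t < 10) (hadj : ∀ t, tab (x t) (x (t + 1)) ≠ 0)
    (hinj : ∀ s t, s < t → t < 10 → x s ≠ x t)
    (hcol : ∀ s t, s < t → t < 10 → tab (x s) (x (s + 1)) ≠ tab (x t) (x (t + 1)))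
    (hper : x 10 = x 0) : ∀ k t, t + k = 9 →
    maskM x 10 ∈ search (x 0) k (x t) (usedM x t) (colsM x t) (maskM x t) := by
  intro k
  induction k with
  | zero =>
    intro t ht
    obtain rfl : t = 9 := by omega
    have h1 : (colsM x 9).testBit (tab (x 9) (x 10)) = false := by
      rw [Bool.eq_false_iff, ne_eq, colsM_iff]
      rintro ⟨s, hs, h⟩
      exact hcol s 9 hs (by norm_num) h
    have h2 := hadj 9
    rw [hper] at h1
    have h3 : tab (x 9) (x 0) ≠ 0 := by rw [← hper]; exact h2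
    have h4 : (tab (x 9) (x 0) == 0) = false := by simpa using h3
    rw [search, h1, h4, Bool.or_self, cond_false, List.mem_singleton, maskM, hper]
  | succ k ih =>
    intro t ht
    rw [search, List.mem_flatMap]
    refine ⟨x (t + 1), List.mem_range.2 (hx _), ?_⟩
    have h1 : (colsM x t).testBit (tab (x t) (x (t + 1))) = false := by
      rw [Bool.eq_false_iff, ne_eq, colsM_iff]
      rintro ⟨s, hs, h⟩
      exact hcol s t hs (by omega) h
    have h2 : (usedM x t).testBit (x (t + 1)) = false := by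
      rw [Bool.eq_false_iff, ne_eq, usedM_iff]
      rintro ⟨s, hs, h⟩
      exact hinj s (t + 1) (by omega) (by omega) h
    have h4 : (tab (x t) (x (t + 1)) == 0) = false := by simpa using hadj t
    rw [h1, h2, h4, Bool.or_self, Bool.or_self, cond_false]
    exact ih (t + 1) (by omega)

end run

theorem exists_code {c : ℕ → Finset (Fin 5)} (hc : IsRainbowHam 5 c) :
    ∃ x : ℕ → ℕ, (∀ t, x t < 10) ∧ (maskM x 10 ∈ masks) ∧
      ∀ t, s(dec (x t), dec (x (t + 1))) ∈ edges c := by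
  have h10 : Nat.choose 5 2 = 10 := rfl
  -- the ten values are all pairs
  have hsurj : ∃ i0, c i0 = dec 0 := by
    have h1 : (Finset.range 10).image c = Finset.univ.filter (fun A : Finset (Fin 5) => A.card = 2) := by
      apply Finset.eq_of_subset_of_card_le
      · intro A hA
        obtain ⟨i, -, rfl⟩ := Finset.mem_image.1 hA
        exact Finset.mem_filter.2 ⟨Finset.mem_univ _, hc.pair i⟩
      · rw [Finset.card_image_of_injOn, Finset.card_range]
        · decide
        · intro i hi j hj hij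
          rw [Finset.coe_range, Set.mem_Iio] at hi hj
          by_contra hne
          rcases Nat.lt_or_gt_of_ne hne with h | h
          · exact hc.inj i j h hj hij
          · exact hc.inj j i h hi hij.symm
    have h2 : dec 0 ∈ (Finset.range 10).image c := by
      rw [h1]; decide
    obtain ⟨i, -, hi⟩ := Finset.mem_image.1 h2
    exact ⟨i, hi⟩
  obtain ⟨i0, hi0⟩ := hsurj
  have hmod : ∀ i, c i = c (i % 10) := by
    intro i
    induction i using Nat.strong_induction_on with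
    | _ i ih =>
      rcases Nat.lt_or_ge i 10 with h | h
      · rw [Nat.mod_eq_of_lt h]
      · have h1 := hc.periodic (i - 10)
        rw [h10, Nat.sub_add_cancel h] at h1
        rw [h1, ih (i - 10) (by omega)]
        congr 1
        omega
  have hinj' : ∀ i j, i % 10 ≠ j % 10 → c i ≠ c j := by
    intro i j hne h
    rw [hmod i, hmod j] at h
    rcases Nat.lt_or_gt_of_ne hne with h1 | h1
    · exact hc.inj _ _ h1 (Nat.mod_lt _ (by norm_num)) h
    · exact hc.inj _ _ h1 (Nat.mod_lt _ (by norm_num)) h.symm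
  have hcmod : ∀ i, c i ∆ c (i + 1) = c (i % 10) ∆ c (i % 10 + 1) := by
    intro i
    rw [← hmod i, hmod (i + 1), hmod (i % 10 + 1)]
    congr 2
    omega
  have hcol' : ∀ i j, i % 10 ≠ j % 10 → c i ∆ c (i + 1) ≠ c j ∆ c (j + 1) := by
    intro i j hne h
    rw [hcmod i, hcmod j] at h
    rcases Nat.lt_or_gt_of_ne hne with h1 | h1
    · exact hc.rainbow _ _ h1 (Nat.mod_lt _ (by norm_num)) h
    · exact hc.rainbow _ _ h1 (Nat.mod_lt _ (by norm_num)) h.symm
  choose f hf1 hf2 using fun i => dec_surj (c i) (hc.pair i)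
  let x : ℕ → ℕ := fun t => f (i0 + t)
  have hx : ∀ t, x t < 10 := fun t => hf1 _
  have hdx : ∀ t, dec (x t) = c (i0 + t) := fun t => hf2 _
  have htab : ∀ t, tab (x t) (x (t + 1)) ≠ 0 ∧
      dec (tab (x t) (x (t + 1)) - 1) = c (i0 + t) ∆ c (i0 + t + 1) := by
    intro t
    have h1 := tab_spec (x t) (hx t) (x (t + 1)) (hx _) (by
      rw [hdx, hdx]; exact hc.adj (i0 + t))
    rw [hdx, hdx] at h1
    exact h1
  have hx0 : x 0 = 0 := dec_inj _ (hx 0) 0 (by norm_num) (by rw [hdx]; exact hi0)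
  refine ⟨x, hx, ?_, ?_⟩
  · have h1 := complete x hx (fun t => (htab t).1) ?_ ?_ ?_ 9 0 rfl
    · rw [hx0] at h1
      have h2 : usedM x 0 = 1 := by rw [usedM, hx0]; rfl
      rw [h2] at h1
      exact h1
    · intro s t hst ht h
      have h2 : c (i0 + s) = c (i0 + t) := by rw [← hdx, ← hdx, h]
      exact hinj' _ _ (by omega) h2
    · intro s t hst ht h
      have h2 : c (i0 + s) ∆ c (i0 + s + 1) = c (i0 + t) ∆ c (i0 + t + 1) := by
        rw [← (htab s).2, ← (htab t).2, h]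
      exact hcol' _ _ (by omega) h2
    · apply dec_inj _ (hx _) _ (hx _)
      rw [hdx, hdx, hmod (i0 + 10), hmod (i0 + 0)]
      congr 1
      omega
  · intro t
    rw [hdx, hdx]
    exact ⟨i0 + t, rfl⟩

theorem masks_and {c d : ℕ → Finset (Fin 5)} (hcd : Disjoint (edges c) (edges d)) {x y : ℕ → ℕ}
    (hx : ∀ t, x t < 10) (hy : ∀ t, y t < 10)
    (hxe : ∀ t, s(dec (x t), dec (x (t + 1))) ∈ edges c)
    (hye : ∀ t, s(dec (y t), dec (y (t + 1))) ∈ edges d) : maskM x 10 &&& maskM y 10 = 0 := by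
  apply Nat.eq_of_testBit_eq
  intro w
  rw [Nat.zero_testBit, Nat.testBit_and, Bool.eq_false_iff, ne_eq, Bool.and_eq_true,
    maskM_iff, maskM_iff]
  rintro ⟨⟨s, -, h1⟩, ⟨t, -, h2⟩⟩
  have h3 : s(dec (x s), dec (x (s + 1))) = s(dec (y t), dec (y (t + 1))) := by
    rcases ed_inj _ (hx s) _ (hx (s + 1)) _ (hy t) _ (hy (t + 1)) (h1.trans h2.symm) with h | h
    · rw [h.1, h.2]
    · rw [h.1, h.2, Sym2.eq_swap]
  exact Set.disjoint_left.1 hcd (hxe s) (h3 ▸ hye t)

/-- No three rainbow Hamilton cycles of `G_{5,2}` are pairwise edge-disjoint. -/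
theorem no_three (c : Fin 3 → ℕ → Finset (Fin 5)) (hc : ∀ j, IsRainbowHam 5 (c j)) :
    ∃ j k, j ≠ k ∧ ¬ Disjoint (edges (c j)) (edges (c k)) := by
  by_contra hcon
  push Not at hcon
  choose x hx hm he using fun j => exists_code (hc j)
  have h1 := masks_check
  rw [List.all_eq_true] at h1
  have h2 := h1 _ (hm 0)
  rw [List.all_eq_true] at h2
  have h3 := h2 _ (hm 1)
  have a01 := masks_and (hcon 0 1 (by decide)) (hx 0) (hx 1) (he 0) (he 1)
  have a02 := masks_and (hcon 0 2 (by decide)) (hx 0) (hx 2) (he 0) (he 2)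
  have a12 := masks_and (hcon 1 2 (by decide)) (hx 1) (hx 2) (he 1) (he 2)
  rw [a01] at h3
  have h4 : (masks.all fun c => (maskM (x 0) 10 &&& c != 0) || (maskM (x 1) 10 &&& c != 0)) =
      true := h3
  rw [List.all_eq_true] at h4
  have h5 := h4 _ (hm 2)
  rw [a02, a12] at h5
  exact absurd h5 (by decide)

end five

section seven

/-- The first cycle. -/
def tb7 : List (Fin 7 × Fin 7) :=
  [(1, 3), (0, 3), (0, 1), (1, 4), (1, 5), (1, 6), (2, 6), (0, 6), (0, 2), (0, 5), (3, 5), (2, 5),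
   (1, 2), (2, 4), (2, 3), (3, 4), (4, 6), (0, 4), (4, 5), (5, 6), (3, 6)]

/-- Rotation of the first five points. -/
def rot (j : Fin 5) (x : Fin 7) : Fin 7 :=
  if x.val < 5 then ⟨(x.val + j.val) % 5, by omega⟩ else x

/-- The five cycles, as sequences of ordered pairs. -/
def P7 (j : Fin 5) (i : ℕ) : Fin 7 × Fin 7 :=
  (rot j (tb7.getD (i % 21) (0, 0)).1, rot j (tb7.getD (i % 21) (0, 0)).2)

/-- The underlying set of an ordered pair. -/
def st (p : Fin 7 × Fin 7) : Finset (Fin 7) := {p.1, p.2}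

/-- Equality of the underlying sets. -/
def sm (p q : Fin 7 × Fin 7) : Bool := (p.1 == q.1 && p.2 == q.2) || (p.1 == q.2 && p.2 == q.1)

theorem sm_iff (p q : Fin 7 × Fin 7) : sm p q = true ↔ st p = st q := by
  obtain ⟨a, b⟩ := p
  obtain ⟨c, d⟩ := q
  rw [sm, Bool.or_eq_true, Bool.and_eq_true, Bool.and_eq_true, beq_iff_eq, beq_iff_eq,
    beq_iff_eq, beq_iff_eq, st, st, ← Finset.coe_inj, Finset.coe_pair, Finset.coe_pair,
    Set.pair_eq_pair_iff]

theorem a1 : ∀ j : Fin 5, ∀ i : Fin 21,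
    (st (P7 j i)).card = 2 ∧ (st (P7 j i) ∆ st (P7 j (i + 1 : ℕ))).card = 2 := by
  decide +kernel

theorem a2 : ∀ j : Fin 5, ∀ i k : Fin 21, sm (P7 j i) (P7 j k) = true → i = k := by
  decide +kernel

theorem a3 : ∀ j : Fin 5, ∀ i k : Fin 21,
    st (P7 j i) ∆ st (P7 j (i + 1 : ℕ)) = st (P7 j k) ∆ st (P7 j (k + 1 : ℕ)) → i = k := by
  decide +kernel

theorem a4 : ∀ j k : Fin 5, ∀ a b : Fin 21,
    ((sm (P7 j a) (P7 k b) && sm (P7 j (a + 1 : ℕ)) (P7 k (b + 1 : ℕ))) ||
      (sm (P7 j a) (P7 k (b + 1 : ℕ)) && sm (P7 j (a + 1 : ℕ)) (P7 k b))) = true → j = k := by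
  decide +kernel

theorem a5 : ∀ x y z : Fin 7, x ≠ y → x ≠ z → y ≠ z → ∃ j : Fin 5, ∃ i : Fin 21,
    ((sm (P7 j i) (x, z) && sm (P7 j (i + 1 : ℕ)) (y, z)) ||
      (sm (P7 j i) (y, z) && sm (P7 j (i + 1 : ℕ)) (x, z))) = true := by
  decide +kernel

/-- The five cycles. -/
def C7 (j : Fin 5) (i : ℕ) : Finset (Fin 7) := st (P7 j i)

theorem C7_mod (j : Fin 5) (i : ℕ) : C7 j (i % 21) = C7 j i := by
  rw [C7, C7, P7, P7, Nat.mod_mod]

theorem C7_mod' (j : Fin 5) (i : ℕ) : C7 j (i % 21 + 1) = C7 j (i + 1) := by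
  rw [C7, C7, P7, P7, Nat.mod_add_mod]

theorem ham7 (j : Fin 5) : IsRainbowHam 7 (C7 j) := by
  have h21 : Nat.choose 7 2 = 21 := rfl
  have hlt : ∀ i, i % 21 < 21 := fun i => Nat.mod_lt _ (by norm_num)
  refine ⟨?_, ?_, ?_, ?_, ?_⟩
  · intro i
    rw [← C7_mod]
    exact (a1 j ⟨i % 21, hlt i⟩).1
  · intro i
    rw [h21, ← C7_mod, Nat.add_mod_right, C7_mod]
  · intro i
    rw [← C7_mod j i, ← C7_mod' j i]
    exact (a1 j ⟨i % 21, hlt i⟩).2
  · intro i k hik hk h
    rw [h21] at hk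
    have h1 := a2 j ⟨i, by omega⟩ ⟨k, hk⟩ ((sm_iff _ _).2 h)
    have h2 : i = k := congrArg Fin.val h1
    omega
  · intro i k hik hk h
    rw [h21] at hk
    have h1 := a3 j ⟨i, by omega⟩ ⟨k, hk⟩ h
    have h2 : i = k := congrArg Fin.val h1
    omega

theorem seven : HasFactorization 7 := by
  have hlt : ∀ i, i % 21 < 21 := fun i => Nat.mod_lt _ (by norm_num)
  refine ⟨C7, ham7, ?_, ?_⟩
  · intro j k hjk
    rw [Set.disjoint_left]
    rintro e ⟨a, rfl⟩ ⟨b, hb⟩
    apply hjk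
    apply a4 j k ⟨a % 21, hlt a⟩ ⟨b % 21, hlt b⟩
    rw [← C7_mod j a, ← C7_mod' j a, ← C7_mod k b, ← C7_mod' k b, Sym2.eq_iff] at hb
    rw [Bool.or_eq_true, Bool.and_eq_true, Bool.and_eq_true, sm_iff, sm_iff, sm_iff, sm_iff]
    exact hb
  · apply Set.Subset.antisymm
    · intro e he
      obtain ⟨j, i, rfl⟩ := Set.mem_iUnion.1 he
      exact ⟨_, _, (ham7 j).pair i, (ham7 j).pair (i + 1), (ham7 j).adj i, rfl⟩
    · rintro e ⟨A, B, hA, hB, hAB, rfl⟩
      -- write `A = {x, z}`, `B = {y, z}`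
      have h1 : ∃ x y z : Fin 7, x ≠ y ∧ x ≠ z ∧ y ≠ z ∧ A = {x, z} ∧ B = {y, z} := by
        have h2 : (A ∆ B).card = (A \ B).card + (B \ A).card := by
          rw [symmDiff_def, Finset.sup_eq_union, Finset.card_union_of_disjoint disjoint_sdiff_sdiff]
        have h3 := Finset.card_sdiff_add_card_inter A B
        have h4 := Finset.card_sdiff_add_card_inter B A
        rw [Finset.inter_comm B A] at h4
        have h5 : (A ∩ B).card = 1 := by omega
        obtain ⟨z, hz⟩ := Finset.card_eq_one.1 h5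
        obtain ⟨x, hx⟩ := Finset.card_eq_one.1 (show (A \ B).card = 1 by omega)
        obtain ⟨y, hy⟩ := Finset.card_eq_one.1 (show (B \ A).card = 1 by omega)
        have mz : z ∈ A ∩ B := by rw [hz]; exact Finset.mem_singleton_self z
        have mx : x ∈ A \ B := by rw [hx]; exact Finset.mem_singleton_self x
        have my : y ∈ B \ A := by rw [hy]; exact Finset.mem_singleton_self y
        rw [Finset.mem_inter] at mz
        rw [Finset.mem_sdiff] at mx my
        refine ⟨x, y, z, ?_, ?_, ?_, ?_, ?_⟩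
        · rintro rfl; exact my.2 mx.1
        · rintro rfl; exact mx.2 mz.2
        · rintro rfl; exact my.2 mz.1
        · rw [← Finset.sdiff_union_inter A B, hx, hz]; rfl
        · rw [← Finset.sdiff_union_inter B A, hy, Finset.inter_comm, hz]; rfl
      obtain ⟨x, y, z, h2, h3, h4, rfl, rfl⟩ := h1
      obtain ⟨j, i, hji⟩ := a5 x y z h2 h3 h4
      rw [Bool.or_eq_true, Bool.and_eq_true, Bool.and_eq_true, sm_iff, sm_iff, sm_iff, sm_iff] at hji
      refine Set.mem_iUnion.2 ⟨j, i, ?_⟩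
      rw [Sym2.eq_iff]
      rcases hji with h | h
      · exact Or.inl ⟨h.1.symm, h.2.symm⟩
      · exact Or.inr ⟨h.2.symm, h.1.symm⟩

end seven

/-- `G_{5,2}` has no three pairwise edge-disjoint rainbow Hamilton cycles, so it has no
factorization into rainbow Hamilton cycles, while `G_{7,2}` has one. -/
theorem result :
    (∀ c : Fin 3 → ℕ → Finset (Fin 5), (∀ j, IsRainbowHam 5 (c j)) →
      ∃ j k, j ≠ k ∧ ¬ Disjoint (edges (c j)) (edges (c k))) ∧
    ¬ HasFactorization 5 ∧ (¬ ∀ n, Odd n → 5 ≤ n → HasFactorization n) ∧ HasFactorization 7 := by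
  have h5 : ¬ HasFactorization 5 := by
    rintro ⟨C, h1, h2, -⟩
    obtain ⟨j, k, hjk, h3⟩ := no_three C h1
    exact h3 (h2 j k hjk)
  exact ⟨no_three, h5, fun h => h5 (h 5 (by decide) le_rfl), seven⟩

end Pool.Agent.Results.MP_fbee77_co.RainbowFactorization
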